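import Pool.Agent.helper55.ZI.Spec2

set_option autoImplicit false

namespace Pool.Agent.helper57.ZI

open Pool.Agent.ZI

universe u

theorem PTH : PTH_stmt.{u} := by
  intro R _ S hS e hee he0 hbr
  obtain ⟨m0, hm0⟩ := hS.cov e
  obtain ⟨L0, hL0max, hL0⟩ := Ideal.exists_le_maximal (Ideal.span {(1 - ⟨e, hm0⟩ : S m0)}) (by
    intro h
    have h1 : (1 : S m0) ∈ Ideal.span {(1 - ⟨e, hm0⟩ : S m0)} := by rw [h]; trivial
    obtain ⟨a, ha⟩ := Ideal.mem_span_singleton'.1 h1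
    have h2 : (a : R) * (1 - e) = 1 := by
      have := congrArg (fun z : S m0 => (z : R)) ha
      simpa using this
    apply he0
    calc e = ((a : R) * (1 - e)) * e := by rw [h2, one_mul]
      _ = a * (e - e * e) := by noncomm_ring
      _ = 0 := by rw [hee, sub_self, mul_zero])
  have node0 : Node S e m0 L0 := ⟨hL0max, hm0, 1 - ⟨e, hm0⟩, hL0 (Ideal.subset_span rfl), by simp⟩
  have hstep : ∀ p : {p : Σ m, Ideal (S m) // Node S e p.1 p.2}, ∃ q : {p : Σ m, Ideal (S m) // Node S e p.1 p.2},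
      p.1.1 < q.1.1 ∧ (∀ a ∈ p.1.2, ∃ a' ∈ q.1.2, (a' : R) = (a : R)) ∧
      ∃ x ∈ S q.1.1, (∀ a ∈ p.1.2, ∃ a' ∈ q.1.2, (a' : R) = (a : R) * x) ∧
        ∃ a ∈ q.1.2, ∀ a' ∈ q.1.2, (a' : R) ≠ (a : R) * x := by
    rintro ⟨⟨m, L⟩, hN⟩
    obtain ⟨m', L', hlt, hN', h1, x, hx, h2, h3⟩ := hbr m L hN
    exact ⟨⟨⟨m', L'⟩, hN'⟩, hlt, h1, x, hx, h2, h3⟩
  choose nx hnx using hstep
  obtain ⟨f, hf⟩ : ∃ f : ℕ → {p : Σ m, Ideal (S m) // Node S e p.1 p.2}, ∀ k, f (k + 1) = nx (f k) :=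
    ⟨fun k => Nat.rec ⟨⟨m0, L0⟩, node0⟩ (fun _ p => nx p) k, fun _ => rfl⟩
  obtain ⟨σ, hσ⟩ : ∃ σ : ℕ → ℕ, σ = fun k => (f k).1.1 := ⟨_, rfl⟩
  subst hσ
  have hσm : StrictMono (fun k => (f k).1.1) := strictMono_nat_of_lt_succ fun k => by
    simp only [hf k]
    exact (hnx (f k)).1
  -- membership of elements of `R`
  obtain ⟨P, hP⟩ : ∃ P : ℕ → R → Prop, ∀ k r, P k r ↔ ∃ a ∈ (f k).1.2, (a : R) = r := ⟨_, fun _ _ => Iff.rfl⟩
  have hPs : ∀ k r, P k r → r ∈ S (f k).1.1 := by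
    intro k r h
    obtain ⟨a, _, rfl⟩ := (hP k r).1 h
    exact a.2
  have hPi : ∀ k r (hr : r ∈ S (f k).1.1), P k r ↔ (⟨r, hr⟩ : S (f k).1.1) ∈ (f k).1.2 := by
    intro k r hr
    rw [hP]
    constructor
    · rintro ⟨a, ha, hae⟩
      have : a = ⟨r, hr⟩ := Subtype.ext hae
      rw [← this]
      exact ha
    · exact fun h => ⟨_, h, rfl⟩
  have hP1 : ∀ k r, P k r → P (k + 1) r := by
    intro k r h
    obtain ⟨a, ha, rfl⟩ := (hP k r).1 h
    obtain ⟨a', ha', h'⟩ := (hnx (f k)).2.1 a ha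
    rw [hP]
    rw [hf k]
    exact ⟨a', ha', h'⟩
  have hPm : ∀ k j r, k ≤ j → P k r → P j r := by
    intro k j r hkj h
    induction j, hkj using Nat.le_induction with
    | base => exact h
    | succ j _ ih => exact hP1 j r ih
  have hPadd : ∀ k r s, P k r → P k s → P k (r + s) := by
    intro k r s h1 h2
    obtain ⟨a, ha, rfl⟩ := (hP k r).1 h1
    obtain ⟨b, hb, rfl⟩ := (hP k s).1 h2
    exact (hP k _).2 ⟨a + b, Ideal.add_mem _ ha hb, rfl⟩
  have hPmul : ∀ k c r, c ∈ S (f k).1.1 → P k r → P k (c * r) := by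
    intro k c r hc h1
    obtain ⟨a, ha, rfl⟩ := (hP k r).1 h1
    exact (hP k _).2 ⟨⟨c, hc⟩ * a, Ideal.mul_mem_left _ _ ha, rfl⟩
  obtain ⟨I, hI⟩ : ∃ I : Submodule R R, ∀ r, r ∈ I ↔ ∃ k, P k r := by
    refine ⟨⟨⟨⟨{r | ∃ k, P k r}, ?_⟩, ?_⟩, ?_⟩, fun _ => Iff.rfl⟩
    · rintro a b ⟨k, hk⟩ ⟨j, hj⟩
      exact ⟨max k j, hPadd _ _ _ (hPm _ _ _ (le_max_left _ _) hk) (hPm _ _ _ (le_max_right _ _) hj)⟩
    · exact ⟨0, (hP 0 0).2 ⟨0, Ideal.zero_mem _, rfl⟩⟩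
    · rintro c r ⟨k, hk⟩
      obtain ⟨n, hn⟩ := hS.cov c
      refine ⟨max k n, hPmul _ _ _ ?_ (hPm _ _ _ (le_max_left _ _) hk)⟩
      exact hS.mono ((le_max_right k n).trans (hσm.id_le _)) hn
  have h1I : (1 : R) ∉ I := by
    intro h
    obtain ⟨k, hk⟩ := (hI 1).1 h
    obtain ⟨a, ha, ha1⟩ := (hP k 1).1 hk
    have h2 : a = 1 := Subtype.ext ha1
    rw [h2] at ha
    exact (f k).2.1.ne_top ((Ideal.eq_top_iff_one _).2 ha)
  have hIk : ∀ k r, r ∈ S (f k).1.1 → r ∈ I → P k r := by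
    intro k r hr hrI
    rw [hPi k r hr]
    have h2 : (f k).1.2 = Ideal.comap (S (f k).1.1).subtype I := by
      refine (f k).2.1.eq_of_le ?_ ?_
      · rw [Ideal.ne_top_iff_one]
        intro h3
        apply h1I
        have h4 := Ideal.mem_comap.1 h3
        simpa using h4
      · intro a ha
        rw [Ideal.mem_comap]
        exact (hI _).2 ⟨k, (hP k _).2 ⟨a, ha, rfl⟩⟩
    rw [h2, Ideal.mem_comap]
    exact hrI
  have hact : ∀ a : R, a • (Submodule.Quotient.mk (p := I) (1 : R)) = Submodule.Quotient.mk (p := I) a := by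
    intro a
    rw [← Submodule.Quotient.mk_smul, smul_eq_mul, mul_one]
  have hact0 : ∀ a : R, a • (Submodule.Quotient.mk (p := I) (1 : R)) = 0 ↔ a ∈ I := by
    intro a
    rw [hact, Submodule.Quotient.mk_eq_zero]
  refine ⟨_, hσm, R ⧸ I, inferInstance, inferInstance, Submodule.Quotient.mk 1, ?_, ?_, ?_, ?_⟩
  · rw [Ne, Submodule.Quotient.mk_eq_zero]
    exact h1I
  · rw [hact, Submodule.Quotient.eq]
    obtain ⟨a, ha, ha1⟩ := (f 0).2.2.2
    have h2 : (1 - e) ∈ I := (hI _).2 ⟨0, (hP 0 _).2 ⟨a, ha, ha1⟩⟩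
    have h3 := I.neg_mem h2
    rwa [neg_sub] at h3
  · intro k
    rw [isSimpleModule_iff_quot_maximal]
    refine ⟨(f k).1.2, (f k).2.1, ⟨?_⟩⟩
    have hker : LinearMap.ker (LinearMap.toSpanSingleton (S (f k).1.1) (R ⧸ I) (Submodule.Quotient.mk 1)) = (f k).1.2 := by
      ext a
      rw [LinearMap.mem_ker, LinearMap.toSpanSingleton_apply, Subring.smul_def, hact0]
      constructor
      · intro h
        exact (hPi k a a.2).1 (hIk k a a.2 h)
      · intro h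
        exact (hI _).2 ⟨k, (hP k _).2 ⟨a, h, rfl⟩⟩
    have hran : LinearMap.range (LinearMap.toSpanSingleton (S (f k).1.1) (R ⧸ I) (Submodule.Quotient.mk 1)) =
        VV (fun k => S (f k).1.1) (Submodule.Quotient.mk (p := I) (1 : R)) k := by
      unfold VV
      exact LinearMap.range_toSpanSingleton _
    exact ((Submodule.quotEquivOfEq _ _ hker.symm).trans
      ((LinearMap.quotKerEquivRange _).trans (LinearEquiv.ofEq _ _ hran))).symm
  · intro k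
    have h0 := (hnx (f k)).2.2
    rw [← hf k] at h0
    obtain ⟨x, hx, h2, a, ha, h3⟩ := h0
    have hax : ∀ b : R, b • (Submodule.Quotient.mk (p := I) x) = Submodule.Quotient.mk (p := I) (b * x) := by
      intro b
      rw [← Submodule.Quotient.mk_smul, smul_eq_mul]
    refine ⟨Submodule.Quotient.mk (p := I) x, ?_, ?_, a, a.2, ?_, ?_⟩
    · unfold VV
      rw [Submodule.mem_span_singleton]
      exact ⟨⟨x, hx⟩, by rw [Subring.smul_def]; exact hact x⟩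
    · intro b hb hb0
      rw [hact0] at hb0
      obtain ⟨c, hc, rfl⟩ := (hP k b).1 (hIk k b hb hb0)
      obtain ⟨c', hc', h4⟩ := h2 c hc
      rw [hax, Submodule.Quotient.mk_eq_zero]
      exact (hI _).2 ⟨k + 1, (hP _ _).2 ⟨c', hc', h4⟩⟩
    · rw [hact0]
      exact (hI _).2 ⟨k + 1, (hP _ _).2 ⟨a, ha, rfl⟩⟩
    · rw [hax, Ne, Submodule.Quotient.mk_eq_zero]
      intro h4
      obtain ⟨a', ha', h5⟩ := (hP (k + 1) _).1 (hIk (k + 1) _ ((S (f (k + 1)).1.1).mul_mem a.2 hx) h4)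
      exact h3 a' ha' h5

end Pool.Agent.helper57.ZI
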